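import Pool.Agent.Helper9K9.DM.Stm

/-! Leaves PRM, INT, TRC (helper86) -/

set_option autoImplicit false

open Polynomial

universe v

namespace Pool.Agent.Helper86K9.DM

open Pool.Agent.Helper9K9.DM

theorem prm : S_PRM.{v} := by
  intro K _ H _ _ A B hA hB
  obtain ⟨w, hw⟩ : ∃ w, A w ≠ 0 := by
    by_contra h
    push Not at h
    exact hA (LinearMap.ext h)
  obtain ⟨v, hv⟩ : ∃ v, B v ≠ 0 := by
    by_contra h
    push Not at h
    exact hB (LinearMap.ext h)
  obtain ⟨φ, hφ⟩ : ∃ φ : Module.Dual K H, φ (B v) ≠ 0 := by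
    by_contra h
    push Not at h
    exact hv ((Module.forall_dual_apply_eq_zero_iff K (B v)).1 h)
  refine ⟨φ.smulRight w, fun h => ?_⟩
  have h1 := LinearMap.congr_fun h v
  simp only [Module.End.mul_apply, LinearMap.smulRight_apply, map_smul, LinearMap.zero_apply,
    smul_eq_zero] at h1
  rcases h1 with h1 | h1
  · exact hφ h1
  · exact hw h1

theorem int : S_INT.{v} := by
  intro K _ H _ _ _ A hA
  have h1 : LinearMap.IsProj (LinearMap.range A) A :=
    (LinearMap.isProj_range_iff_isIdempotentElem A).2 hA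
  exact ⟨_, h1.trace⟩

theorem tr_eq {K : Type v} [Field K] {H : Type v} [AddCommGroup H] [Module K H]
    (p τ : Module.End K H) {L : Type} [Field L] (i : L →+* K) (q : ℕ → ℚ)
    (hq : ∀ k : ℕ, LinearMap.trace K H (p * τ ^ k) = q k) (G : L[X]) :
    LinearMap.trace K H (p * aeval τ (G.map i)) =
      i (∑ k ∈ Finset.range (G.natDegree + 1), G.coeff k * (q k : L)) := by
  rw [aeval_def, eval₂_map, eval₂_eq_sum_range, Finset.mul_sum, map_sum, map_sum]
  refine Finset.sum_congr rfl fun k _ => ?_
  rw [RingHom.comp_apply, ← Algebra.smul_def, mul_smul_comm, map_smul, hq, map_mul, smul_eq_mul,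
    map_ratCast]

theorem trc : S_TRC.{v} := by
  intro K _ _ H _ _ p τ L _ i γ hk F N hN
  choose q hq using hk
  have : CharZero L := ⟨fun m n h => by
    have h1 := congrArg i h
    simpa using h1⟩
  rw [tr_eq p τ i q hq] at hN ⊢
  have h1 : ∑ k ∈ Finset.range (F.natDegree + 1), F.coeff k * (q k : L) = (N : L) := by
    apply i.injective
    rw [hN, map_natCast]
  have h2 := congrArg γ h1
  rw [map_sum, map_natCast] at h2
  have h3 : (F.map (γ : L →+* L)).natDegree = F.natDegree :=
    natDegree_map_eq_of_injective γ.injective F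
  rw [h3]
  have h4 : ∑ k ∈ Finset.range (F.natDegree + 1), (F.map (γ : L →+* L)).coeff k * (q k : L) =
      ∑ k ∈ Finset.range (F.natDegree + 1), γ (F.coeff k * (q k : L)) := by
    refine Finset.sum_congr rfl fun k _ => ?_
    rw [coeff_map, map_mul, map_ratCast]
    rfl
  rw [h4, h2, map_natCast]

end Pool.Agent.Helper86K9.DM
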